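import Pool.Agent.H28.RC.Targets2

/-!
Module DIR: Dirichlet characters with a given value at `p`.
-/

set_option autoImplicit false

namespace Pool.Agent.H4.RC

open Pool.Agent.H28.RC

theorem exists_hom {G : Type} [CommGroup G] [Finite G] (u : G) (ζ : ℂˣ)
    (h : ζ ^ orderOf u = 1) : ∃ θ : G →* ℂˣ, θ u = ζ := by
  have hg : ∀ x : Subgroup.zpowers u, x ∈ Subgroup.zpowers
      (⟨u, Subgroup.mem_zpowers u⟩ : Subgroup.zpowers u) := by
    rintro ⟨x, k, rfl⟩
    exact ⟨k, rfl⟩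
  have ho : orderOf ζ ∣ orderOf (⟨u, Subgroup.mem_zpowers u⟩ : Subgroup.zpowers u) := by
    rw [Subgroup.orderOf_mk]
    exact orderOf_dvd_of_pow_eq_one h
  obtain ⟨θ, hθ⟩ := MonoidHom.domRestrict_surjective ℂ (Subgroup.zpowers u)
    (monoidHomOfForallMemZpowers hg ho)
  refine ⟨θ, ?_⟩
  have h1 := congrArg (fun f => f ⟨u, Subgroup.mem_zpowers u⟩) hθ
  simp only [monoidHomOfForallMemZpowers_apply_gen] at h1
  exact h1

theorem pf_DIR : T_DIR := by
  intro p M ζ hp hM hζ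
  have h2 := hp.two_le
  have hpM : 2 ≤ p ^ M := le_trans h2 (Nat.le_self_pow (by omega) p)
  obtain ⟨q, hq⟩ : ∃ q, p ^ M = q + 1 := ⟨p ^ M - 1, by omega⟩
  have hq1 : 1 ≤ q := by omega
  have hne : NeZero q := ⟨by omega⟩
  have hcop : q.Coprime p := by
    rw [Nat.coprime_comm, hp.coprime_iff_not_dvd]
    intro h
    have h3 : p ∣ q + 1 := hq ▸ dvd_pow_self p (by omega)
    have h4 := (Nat.dvd_add_right h).1 h3
    exact absurd (Nat.dvd_one.1 h4) hp.one_lt.ne'
  have hu : ((ZMod.unitOfCoprime p hcop.symm : (ZMod q)ˣ)) ^ M = 1 := by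
    ext
    rw [Units.val_pow_eq_pow_val, ZMod.coe_unitOfCoprime, Units.val_one]
    have : ((p ^ M : ℕ) : ZMod q) = ((q + 1 : ℕ) : ZMod q) := by rw [hq]
    push_cast at this
    rw [this, ZMod.natCast_self, zero_add]
  have hord : M ∣ orderOf (ZMod.unitOfCoprime p hcop.symm : (ZMod q)ˣ) := by
    have h3 : orderOf (ZMod.unitOfCoprime p hcop.symm : (ZMod q)ˣ) ∣ M := orderOf_dvd_of_pow_eq_one hu
    have h4 : 0 < orderOf (ZMod.unitOfCoprime p hcop.symm : (ZMod q)ˣ) := orderOf_pos _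
    rcases (Nat.le_of_dvd hM h3).lt_or_eq with h5 | h5
    · exfalso
      obtain ⟨j, hj⟩ : ∃ j, j = orderOf (ZMod.unitOfCoprime p hcop.symm : (ZMod q)ˣ) := ⟨_, rfl⟩
      have h6 := pow_orderOf_eq_one (ZMod.unitOfCoprime p hcop.symm : (ZMod q)ˣ)
      rw [← hj] at h6 h4 h5
      have h7 : ((p ^ j : ℕ) : ZMod q) = ((1 : ℕ) : ZMod q) := by
        have := congrArg Units.val h6
        rw [Units.val_pow_eq_pow_val, ZMod.coe_unitOfCoprime, Units.val_one] at this
        push_cast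
        exact this
      rw [ZMod.natCast_eq_natCast_iff] at h7
      have h8 : 2 ≤ p ^ j := le_trans h2 (Nat.le_self_pow (by omega) p)
      have h9 := (Nat.modEq_iff_dvd' (by omega)).1 h7.symm
      have h10 := Nat.le_of_dvd (by omega) h9
      have h11 : p ^ j < p ^ M := Nat.pow_lt_pow_right hp.one_lt h5
      omega
    · rw [h5]
  have hζ0 : ζ ≠ 0 := by
    rintro rfl
    rw [zero_pow (by omega)] at hζ
    exact zero_ne_one hζ
  obtain ⟨θ, hθ⟩ := exists_hom (ZMod.unitOfCoprime p hcop.symm : (ZMod q)ˣ) (Units.mk0 ζ hζ0) (by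
    obtain ⟨k, hk⟩ := hord
    rw [hk, pow_mul]
    have : (Units.mk0 ζ hζ0) ^ M = 1 := by
      ext
      simpa using hζ
    rw [this, one_pow])
  refine ⟨q, hne, MulChar.ofUnitHom θ, hcop, ?_⟩
  have h12 := MulChar.ofUnitHom_coe θ (ZMod.unitOfCoprime p hcop.symm : (ZMod q)ˣ)
  rw [ZMod.coe_unitOfCoprime, hθ] at h12
  exact h12

end Pool.Agent.H4.RC
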