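import Pool.Agent.H28.RC.Targets2

/-!
Module RAM: Ramanujan sums are integers.
-/

set_option autoImplicit false

namespace Pool.Agent.H4.RC

open Pool.Agent.H28.RC Finset

theorem sum_dvd {d k : ℕ} (hd : 1 ≤ d) (f : ℕ → ℂ) :
    ∑ a ∈ range (d * k), (if d ∣ a then f a else 0) = ∑ j ∈ range k, f (d * j) := by
  rw [← sum_filter]
  have h1 : (range (d * k)).filter (fun a => d ∣ a) = (range k).image fun j => d * j := by
    ext a
    simp only [mem_filter, mem_range, mem_image]
    constructor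
    · rintro ⟨h, j, rfl⟩
      exact ⟨j, Nat.lt_of_mul_lt_mul_left h, rfl⟩
    · rintro ⟨j, hj, rfl⟩
      exact ⟨Nat.mul_lt_mul_of_pos_left hj hd, Dvd.intro _ rfl⟩
  rw [h1, sum_image]
  intro a _ b _ h
  exact Nat.eq_of_mul_eq_mul_left hd h

theorem geom (k : ℕ) (w : ℂ) (hw : w ^ k = 1) : ∃ n : ℤ, ∑ j ∈ range k, w ^ j = n := by
  by_cases h : w = 1
  · exact ⟨k, by simp [h]⟩
  · refine ⟨0, ?_⟩
    rw [geom_sum_eq h, hw]
    simp

theorem pf_RAM : T_RAM := by
  intro M z hM hz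
  have hmu : ∀ g : ℕ, ∑ d ∈ g.divisors, ArithmeticFunction.moebius d =
      if g = 1 then 1 else 0 := by
    intro g
    rw [← ArithmeticFunction.coe_mul_zeta_apply, ArithmeticFunction.moebius_mul_coe_zeta,
      ArithmeticFunction.one_apply]
  have h1 : ∀ a ∈ range M, (if a.Coprime M then z ^ a else 0) =
      ∑ d ∈ M.divisors, (ArithmeticFunction.moebius d : ℂ) * (if d ∣ a then z ^ a else 0) := by
    intro a _
    have h2 := hmu (a.gcd M)
    have h3 : (a.gcd M).divisors = M.divisors.filter fun d => d ∣ a := by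
      ext d
      simp only [Nat.mem_divisors, mem_filter, Nat.dvd_gcd_iff]
      constructor
      · rintro ⟨⟨h4, h5⟩, -⟩
        exact ⟨⟨h5, by omega⟩, h4⟩
      · rintro ⟨⟨h4, -⟩, h5⟩
        exact ⟨⟨h5, h4⟩, fun e => by
          have := Nat.eq_zero_of_gcd_eq_zero_right e
          omega⟩
    rw [h3, sum_filter] at h2
    have h4 : ∑ d ∈ M.divisors, (ArithmeticFunction.moebius d : ℂ) * (if d ∣ a then z ^ a else 0) =
        ((∑ d ∈ M.divisors, if d ∣ a then ArithmeticFunction.moebius d else 0 : ℤ) : ℂ) * z ^ a := by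
      push_cast
      rw [sum_mul]
      refine sum_congr rfl fun d _ => ?_
      split_ifs <;> simp
    rw [h4, h2]
    unfold Nat.Coprime
    split_ifs <;> simp
  have h5 : ∑ a ∈ un M, z ^ a = ∑ d ∈ M.divisors, (ArithmeticFunction.moebius d : ℂ) *
      ∑ j ∈ range (M / d), (z ^ d) ^ j := by
    unfold un
    rw [sum_filter, sum_congr rfl h1, sum_comm]
    refine sum_congr rfl fun d hd => ?_
    rw [← mul_sum]
    congr 1
    have hd1 : d ∣ M := (Nat.mem_divisors.1 hd).1
    have hd2 : 1 ≤ d := Nat.pos_of_dvd_of_pos hd1 hM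
    conv_lhs => rw [← Nat.mul_div_cancel' hd1]
    rw [sum_dvd hd2]
    refine sum_congr rfl fun j _ => ?_
    rw [pow_mul]
  have h6 : ∀ d ∈ M.divisors, ∃ n : ℤ, (ArithmeticFunction.moebius d : ℂ) *
      ∑ j ∈ range (M / d), (z ^ d) ^ j = n := by
    intro d hd
    have hd1 : d ∣ M := (Nat.mem_divisors.1 hd).1
    obtain ⟨n, hn⟩ := geom (M / d) (z ^ d) (by rw [← pow_mul, Nat.mul_div_cancel' hd1, hz])
    exact ⟨ArithmeticFunction.moebius d * n, by rw [hn]; push_cast; ring⟩
  choose! n hn using h6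
  refine ⟨∑ d ∈ M.divisors, n d, ?_⟩
  rw [h5, sum_congr rfl hn]
  push_cast
  rfl

end Pool.Agent.H4.RC
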